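import Pool.Agent.Helper73.LB.Rep
import Pool.Agent.Helper53.LB.Green

/-!
The varifold of a zone
-/

set_option autoImplicit false

open MeasureTheory Set Real
open scoped ContDiff

namespace Pool.Agent.Helper33.LB

open Pool.Agent.Helper19.LB

theorem isOpen_zone (α β : ℝ) : IsOpen (zone α β) := by
  have h1 : IsOpen {x : Pt | α < x.1} := isOpen_lt continuous_const continuous_fst
  have h2 : IsOpen {x : Pt | x.1 < β} := isOpen_lt continuous_fst continuous_const
  have h3 : IsOpen {x : Pt | x.1 ^ 2 + x.2 ^ 2 < 1} :=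
    isOpen_lt ((continuous_fst.pow 2).add (continuous_snd.pow 2)) continuous_const
  exact h1.inter (h2.inter h3)

theorem zone_subset (α β : ℝ) : zone α β ⊆ Icc α β ×ˢ Icc (-1 : ℝ) 1 := by
  rintro x ⟨h1, h2, h3⟩
  refine ⟨⟨h1.le, h2.le⟩, ?_, ?_⟩ <;> nlinarith [sq_nonneg x.1, sq_nonneg (x.2 - 1), sq_nonneg (x.2 + 1)]

theorem isCompact_box (α β : ℝ) : IsCompact (Icc α β ×ˢ Icc (-1 : ℝ) 1) :=
  isCompact_Icc.prod isCompact_Icc

/-- A continuous function is integrable over the zone. -/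
theorem integrableOn_zone {α β : ℝ} {F : Pt → ℝ} (hF : ContinuousOn F (Icc α β ×ˢ univ)) :
    IntegrableOn F (zone α β) :=
  ((hF.mono (prod_mono_right (subset_univ _))).integrableOn_compact (isCompact_box α β)).mono_set
    (zone_subset α β)

theorem bound_zone {α β : ℝ} {F : Pt → ℝ} (hF : ContinuousOn F (Icc α β ×ˢ univ)) :
    ∃ K : ℝ, 0 ≤ K ∧ ∀ x ∈ zone α β, |F x| ≤ K := by
  obtain ⟨K, hK⟩ := (isCompact_box α β).exists_bound_of_continuousOn
    (hF.mono (prod_mono_right (subset_univ _)))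
  exact ⟨max K 0, le_max_right _ _, fun x hx => (hK x (zone_subset α β hx)).trans (le_max_left _ _)⟩

theorem continuousOn_flip {α β : ℝ} {F : ℝ → ℝ → ℝ}
    (hF : ContinuousOn (fun x : Pt => F x.1 x.2) (Icc α β ×ˢ univ)) :
    ContinuousOn (fun x : Pt => F x.1 (1 - x.2)) (Icc α β ×ˢ univ) := by
  have h1 : ContinuousOn (fun x : Pt => ((x.1, 1 - x.2) : Pt)) (Icc α β ×ˢ univ) :=
    (continuous_fst.prodMk (continuous_const.sub continuous_snd)).continuousOn
  exact hF.comp h1 fun x hx => ⟨hx.1, mem_univ _⟩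

theorem volume_zone_lt (α β : ℝ) : volume (zone α β) < ⊤ :=
  (measure_mono (zone_subset α β)).trans_lt (isCompact_box α β).measure_lt_top

/-- A mass density which is bounded by a multiple of `ρ` is integrable. -/
theorem integrable_mass {α β : ℝ} (hα : 0 ≤ α) (hβ : β ≤ 1) {m : Pt → ℝ}
    (hm : AEStronglyMeasurable m (volume.restrict (zone α β))) {K : ℝ}
    (hK : ∀ x ∈ zone α β, |m x| ≤ K * x.1) :
    Integrable m (volume.restrict (zone α β)) ∧
      Integrable (fun x => m x / x.1) (volume.restrict (zone α β)) := by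
  have hpos : ∀ x ∈ zone α β, 0 < x.1 := fun x hx => hα.trans_lt hx.1
  have hK0 : ∀ x ∈ zone α β, 0 ≤ K := fun x hx => by
    have h1 := (abs_nonneg _).trans (hK x hx)
    exact nonneg_of_mul_nonneg_left h1 (hpos x hx)
  constructor
  · refine IntegrableOn.of_bound (volume_zone_lt α β) hm K ?_
    filter_upwards [ae_restrict_mem (isOpen_zone α β).measurableSet] with x hx
    rw [Real.norm_eq_abs]
    refine (hK x hx).trans ?_
    have : x.1 ≤ 1 := hx.2.1.le.trans hβ
    nlinarith [hK0 x hx]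
  · refine IntegrableOn.of_bound (volume_zone_lt α β)
      (hm.aemeasurable.div measurable_fst.aemeasurable).aestronglyMeasurable K ?_
    filter_upwards [ae_restrict_mem (isOpen_zone α β).measurableSet] with x hx
    rw [Real.norm_eq_abs, abs_div, abs_of_pos (hpos x hx), div_le_iff₀ (hpos x hx)]
    exact hK x hx

/-- The product with a continuous function is integrable. -/
theorem integrable_mul {α β : ℝ} {m F : Pt → ℝ}
    (hm : Integrable m (volume.restrict (zone α β))) (hF : Continuous F) :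
    Integrable (fun x => m x * F x) (volume.restrict (zone α β)) := by
  obtain ⟨K, _, hK⟩ := bound_zone (α := α) (β := β) hF.continuousOn
  refine hm.mul_bdd (c := K) hF.aestronglyMeasurable ?_
  filter_upwards [ae_restrict_mem (isOpen_zone α β).measurableSet] with x hx
  exact hK x hx

theorem hasDerivAt_r {A : Pt → ℝ} (hA : ContDiff ℝ ∞ A) (x : Pt) :
    HasDerivAt (fun r => A (r, x.2)) (dr A x) x.1 := by
  have h1 : HasFDerivAt A (fderiv ℝ A x) (x.1, x.2) :=
    (hA.differentiable (by simp) x).hasFDerivAt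
  exact h1.comp_hasDerivAt x.1 ((hasDerivAt_id x.1).prodMk (hasDerivAt_const x.1 x.2))

theorem hasDerivAt_z {A : Pt → ℝ} (hA : ContDiff ℝ ∞ A) (x : Pt) :
    HasDerivAt (fun z => A (x.1, z)) (dz A x) x.2 := by
  have h1 : HasFDerivAt A (fderiv ℝ A x) (x.1, x.2) :=
    (hA.differentiable (by simp) x).hasFDerivAt
  exact h1.comp_hasDerivAt x.2 ((hasDerivAt_const x.2 x.1).prodMk (hasDerivAt_id x.2))

/-- The direction of the planes of the third type. -/
noncomputable def dirn (q : ℝ × ℝ) : Pt :=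
  if q.1 = 0 then (1, 0) else (q.1 / √(q.1 ^ 2 + q.2 ^ 2), -q.2 / √(q.1 ^ 2 + q.2 ^ 2))

theorem measurable_dirn : Measurable dirn := by
  unfold dirn
  refine Measurable.ite (measurableSet_eq_fun measurable_fst measurable_const) measurable_const ?_
  have h1 : Measurable fun q : ℝ × ℝ => √(q.1 ^ 2 + q.2 ^ 2) :=
    ((measurable_fst.pow_const 2).add (measurable_snd.pow_const 2)).sqrt
  exact (measurable_fst.div h1).prodMk (measurable_snd.neg.div h1)

theorem dirn_unit (q : ℝ × ℝ) : (dirn q).1 ^ 2 + (dirn q).2 ^ 2 = 1 := by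
  unfold dirn
  split_ifs with h
  · norm_num
  · have h1 : 0 < q.1 ^ 2 + q.2 ^ 2 := by positivity
    simp only [div_pow, neg_sq, sq_sqrt h1.le]
    field_simp

theorem dirn_mul {P w : ℝ} (hw : P = 0 → w = 0) (a b c : ℝ) :
    (P + w ^ 2 / P) * ((dirn (P, w)).1 ^ 2 * a + (dirn (P, w)).1 * (dirn (P, w)).2 * b +
      (dirn (P, w)).2 ^ 2 * c) = P * a - w * b + w ^ 2 / P * c := by
  by_cases h : P = 0
  · have h2 := hw h
    subst h
    subst h2
    simp
  · have h1 : 0 < P ^ 2 + w ^ 2 := by positivity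
    have h3 : √(P ^ 2 + w ^ 2) ≠ 0 := (Real.sqrt_pos.mpr h1).ne'
    have h4 : √(P ^ 2 + w ^ 2) ^ 2 = P ^ 2 + w ^ 2 := sq_sqrt h1.le
    have e1 : (dirn (P, w)).1 ^ 2 = P ^ 2 / (P ^ 2 + w ^ 2) := by
      simp only [dirn, h, if_false, div_pow, h4]
    have e2 : (dirn (P, w)).1 * (dirn (P, w)).2 = -(P * w) / (P ^ 2 + w ^ 2) := by
      simp only [dirn, h, if_false]
      rw [div_mul_div_comm, ← sq, h4]
      ring
    have e3 : (dirn (P, w)).2 ^ 2 = w ^ 2 / (P ^ 2 + w ^ 2) := by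
      simp only [dirn, h, if_false, div_pow, neg_sq, h4]
    rw [e1, e2, e3]
    field_simp
    ring

end Pool.Agent.Helper33.LB

namespace Pool.Agent.Helper19.LB

open Pool.Agent.Helper33.LB

theorem zone_rep {k : ℕ} (hk : 3 ≤ k) {α β : ℝ} (hα : 0 ≤ α) (hαβ : α < β) (hβ : β ≤ 1)
    {f : Fld} (hf : IsFld k α β f) (ha : ∀ ρ ∈ Ioo α β, ∀ h, Adm k 0 f ρ h) :
    Rep k (fun A B =>
      (∫ s in arc α β, (sin s * Uf k f A B (sin s, cos s) + cos s * Vf k f A B (sin s, cos s))) +
      (∫ z in Ioo (-zz β) (zz β), Uf k f A B (β, z)) -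
      ∫ z in Ioo (-zz α) (zz α), Uf k f A B (α, z)) := by
  obtain ⟨n, rfl⟩ : ∃ n, k = n + 3 := ⟨k - 3, by omega⟩
  have k1 : n + 3 - 1 = n + 2 := by omega
  have k2 : n + 3 - 2 = n + 1 := by omega
  have hZ := (isOpen_zone α β).measurableSet
  have hmem : ∀ᵐ x ∂(volume.restrict (zone α β)), x ∈ zone α β := ae_restrict_mem hZ
  have hpos : ∀ x ∈ zone α β, 0 < x.1 := fun x hx => hα.trans_lt hx.1
  have hle1 : ∀ x ∈ zone α β, x.1 ≤ 1 := fun x hx => hx.2.1.le.trans hβ
  have hio : ∀ x ∈ zone α β, x.1 ∈ Ioo α β := fun x hx => ⟨hx.1, hx.2.1⟩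
  have hdisc : ∀ᵐ x ∂(volume.restrict (zone α β)), x ∈ disc := by
    filter_upwards [hmem] with x hx
    exact ⟨hpos x hx, hx.2.2.le⟩
  -- continuity
  have cc := continuousOn_flip hf.cont_c
  have cc1 := continuousOn_flip hf.cont_c1
  have cw := continuousOn_flip hf.cont_w
  have cw1 := continuousOn_flip hf.cont_w1
  have cw2 := continuousOn_flip hf.cont_w2
  have cP := continuousOn_flip hf.cont_P
  have cP1 := continuousOn_flip hf.cont_P1
  have cpow : ∀ j : ℕ, ContinuousOn (fun x : Pt => x.1 ^ j) (Icc α β ×ˢ univ) := fun j =>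
    (continuous_fst.pow j).continuousOn
  have aem : ∀ F : Pt → ℝ, ContinuousOn F (Icc α β ×ˢ univ) →
      AEMeasurable F (volume.restrict (zone α β)) := fun F hF =>
    (integrableOn_zone hF).aestronglyMeasurable.aemeasurable
  have mc := aem _ cc
  have mc1 := aem _ cc1
  have mw := aem _ cw
  have mw2 := aem _ cw2
  have mP := aem _ cP
  have mP1 := aem _ cP1
  have mpow : ∀ j : ℕ, AEMeasurable (fun x : Pt => x.1 ^ j) (volume.restrict (zone α β)) :=
    fun j => aem _ (cpow j)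
  obtain ⟨Kc, hKc0, hKc⟩ := bound_zone cc
  obtain ⟨K1, hK10, hK1⟩ := bound_zone cc1
  obtain ⟨K2, hK20, hK2⟩ := bound_zone cw2
  obtain ⟨KP, hKP0, hKP⟩ := bound_zone cP
  obtain ⟨K3, hK30, hK3⟩ := bound_zone cP1
  obtain ⟨Kw, hKw0, hKw⟩ := bound_zone cw
  have pow_le : ∀ x ∈ zone α β, ∀ j : ℕ, x.1 ^ (j + 1) ≤ x.1 := fun x hx j => by
    rw [pow_succ]
    have h1 := pow_le_one₀ (n := j) (hpos x hx).le (hle1 x hx)
    nlinarith [hpos x hx]
  -- the masses
  let X : Pt → ℝ := fun x => f.w x.1 (1 - x.2) ^ 2 / f.P x.1 (1 - x.2) * x.1 ^ (n + 2)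
  let ma : Pt → ℝ := fun x => f.c x.1 (1 - x.2) * x.1 ^ (n + 1) - X x
  let mb : Pt → ℝ := fun x => f.P x.1 (1 - x.2) * x.1 ^ (n + 2) + X x
  let md : Pt → ℝ := fun x => x.1 ^ (n + 3) * (f.c1 x.1 (1 - x.2) / x.1 + f.P1 x.1 (1 - x.2) +
    f.w2 x.1 (1 - x.2) -
      (n + 3) * (f.w x.1 (1 - x.2) ^ 2 / f.P x.1 (1 - x.2)) / x.1) / (n + 3)
  let p : Pt → ℝ := fun x => f.P x.1 (1 - x.2) * x.1 ^ (n + 2)
  let q : Pt → ℝ := fun x => f.w x.1 (1 - x.2) * x.1 ^ (n + 2)
  have adm : ∀ x ∈ zone α β, Adm (n + 3) 0 f x.1 (1 - x.2) := fun x hx => ha _ (hio x hx) _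
  have hX0 : ∀ x ∈ zone α β, 0 ≤ X x := fun x hx =>
    mul_nonneg (div_nonneg (sq_nonneg _) (adm x hx).nonneg) (pow_nonneg (hpos x hx).le _)
  have hXc : ∀ x ∈ zone α β, X x ≤ f.c x.1 (1 - x.2) * x.1 ^ (n + 1) := fun x hx => by
    have h1 := (adm x hx).mass
    have h2 : X x = x.1 * (f.w x.1 (1 - x.2) ^ 2 / f.P x.1 (1 - x.2)) * x.1 ^ (n + 1) := by
      simp only [X]
      ring
    rw [h2]
    rw [add_zero] at h1
    exact mul_le_mul_of_nonneg_right h1 (pow_nonneg (hpos x hx).le _)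
  have hcb : ∀ x ∈ zone α β, f.c x.1 (1 - x.2) * x.1 ^ (n + 1) ≤ Kc * x.1 := fun x hx =>
    (mul_le_mul_of_nonneg_right ((le_abs_self _).trans (hKc x hx))
      (pow_nonneg (hpos x hx).le _)).trans (mul_le_mul_of_nonneg_left (pow_le x hx n) hKc0)
  have hma0 : ∀ x ∈ zone α β, 0 ≤ ma x := fun x hx => sub_nonneg.mpr (hXc x hx)
  have hp0 : ∀ x ∈ zone α β, 0 ≤ p x := fun x hx =>
    mul_nonneg (adm x hx).nonneg (pow_nonneg (hpos x hx).le _)
  have hpb : ∀ x ∈ zone α β, p x ≤ KP * x.1 := fun x hx =>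
    (mul_le_mul_of_nonneg_right ((le_abs_self _).trans (hKP x hx))
      (pow_nonneg (hpos x hx).le _)).trans (mul_le_mul_of_nonneg_left (pow_le x hx (n + 1)) hKP0)
  have hmb0 : ∀ x ∈ zone α β, 0 ≤ mb x := fun x hx => add_nonneg (hp0 x hx) (hX0 x hx)
  have hn3 : (0 : ℝ) < n + 3 := by positivity
  have hmd0 : ∀ x ∈ zone α β, 0 ≤ md x := fun x hx => by
    have h1 := (adm x hx).hoop
    push_cast at h1
    exact div_nonneg (mul_nonneg (pow_nonneg (hpos x hx).le _) (sub_nonneg.mpr h1)) hn3.le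
  -- measurability of the masses
  have mX : AEMeasurable X (volume.restrict (zone α β)) :=
    ((mw.pow_const 2).div mP).mul (mpow (n + 2))
  have mma : AEMeasurable ma (volume.restrict (zone α β)) := (mc.mul (mpow (n + 1))).sub mX
  have mp : AEMeasurable p (volume.restrict (zone α β)) := mP.mul (mpow (n + 2))
  have mmb : AEMeasurable mb (volume.restrict (zone α β)) := mp.add mX
  have mmd : AEMeasurable md (volume.restrict (zone α β)) :=
    ((mpow (n + 3)).mul ((((mc1.div measurable_fst.aemeasurable).add mP1).add mw2).sub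
      ((((mw.pow_const 2).div mP).const_mul _).div measurable_fst.aemeasurable))).div_const _
  -- integrability of the masses
  obtain ⟨iX, iX'⟩ := integrable_mass hα hβ mX.aestronglyMeasurable (K := Kc) fun x hx => by
    rw [abs_of_nonneg (hX0 x hx)]
    exact (hXc x hx).trans (hcb x hx)
  obtain ⟨ia, ia'⟩ := integrable_mass hα hβ mma.aestronglyMeasurable (K := Kc) fun x hx => by
    rw [abs_of_nonneg (hma0 x hx)]
    exact (sub_le_self _ (hX0 x hx)).trans (hcb x hx)
  obtain ⟨ib, ib'⟩ := integrable_mass hα hβ mmb.aestronglyMeasurable (K := KP + Kc) fun x hx => by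
    rw [abs_of_nonneg (hmb0 x hx), add_mul]
    exact add_le_add (hpb x hx) ((hXc x hx).trans (hcb x hx))
  obtain ⟨idd, id'⟩ := integrable_mass hα hβ mmd.aestronglyMeasurable (K := K1 + K3 + K2)
    fun x hx => by
    rw [abs_of_nonneg (hmd0 x hx)]
    have hx0 := hpos x hx
    have hx1 := hle1 x hx
    have h0 : 0 ≤ f.w x.1 (1 - x.2) ^ 2 / f.P x.1 (1 - x.2) :=
      div_nonneg (sq_nonneg _) (adm x hx).nonneg
    have h1 : md x ≤ x.1 ^ (n + 3) * (f.c1 x.1 (1 - x.2) / x.1 + f.P1 x.1 (1 - x.2) +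
        f.w2 x.1 (1 - x.2) -
      (n + 3) * (f.w x.1 (1 - x.2) ^ 2 / f.P x.1 (1 - x.2)) / x.1) := by
      have h2 : 0 ≤ x.1 ^ (n + 3) * (f.c1 x.1 (1 - x.2) / x.1 + f.P1 x.1 (1 - x.2) +
        f.w2 x.1 (1 - x.2) -
        (n + 3) * (f.w x.1 (1 - x.2) ^ 2 / f.P x.1 (1 - x.2)) / x.1) := by
        have h3 := mul_nonneg (hmd0 x hx) hn3.le
        simp only [md] at h3
        rwa [div_mul_cancel₀ _ hn3.ne'] at h3
      exact div_le_self h2 (by linarith [Nat.cast_nonneg (α := ℝ) n])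
    refine h1.trans ?_
    have h4 : x.1 ^ (n + 3) * (f.c1 x.1 (1 - x.2) / x.1 + f.P1 x.1 (1 - x.2) +
        f.w2 x.1 (1 - x.2) - (n + 3) * (f.w x.1 (1 - x.2) ^ 2 / f.P x.1 (1 - x.2)) / x.1) =
        x.1 ^ (n + 2) * f.c1 x.1 (1 - x.2) + x.1 ^ (n + 3) * f.P1 x.1 (1 - x.2) +
          x.1 ^ (n + 3) * f.w2 x.1 (1 - x.2) -
          x.1 ^ (n + 2) * ((n + 3) * (f.w x.1 (1 - x.2) ^ 2 / f.P x.1 (1 - x.2))) := by
      have : x.1 ^ (n + 3) = x.1 ^ (n + 2) * x.1 := pow_succ _ _
      rw [this]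
      field_simp
    rw [h4]
    have b1 : x.1 ^ (n + 2) * f.c1 x.1 (1 - x.2) ≤ K1 * x.1 := by
      rw [mul_comm]
      exact (mul_le_mul_of_nonneg_right ((le_abs_self _).trans (hK1 x hx))
        (pow_nonneg hx0.le _)).trans (mul_le_mul_of_nonneg_left (pow_le x hx (n + 1)) hK10)
    have b2 : x.1 ^ (n + 3) * f.P1 x.1 (1 - x.2) ≤ K3 * x.1 := by
      rw [mul_comm]
      exact (mul_le_mul_of_nonneg_right ((le_abs_self _).trans (hK3 x hx))
        (pow_nonneg hx0.le _)).trans (mul_le_mul_of_nonneg_left (pow_le x hx (n + 2)) hK30)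
    have b3 : x.1 ^ (n + 3) * f.w2 x.1 (1 - x.2) ≤ K2 * x.1 := by
      rw [mul_comm]
      exact (mul_le_mul_of_nonneg_right ((le_abs_self _).trans (hK2 x hx))
        (pow_nonneg hx0.le _)).trans (mul_le_mul_of_nonneg_left (pow_le x hx (n + 2)) hK20)
    have b4 : 0 ≤ x.1 ^ (n + 2) *
        ((n + 3) * (f.w x.1 (1 - x.2) ^ 2 / f.P x.1 (1 - x.2))) :=
      mul_nonneg (pow_nonneg hx0.le _) (mul_nonneg hn3.le h0)
    linarith
  have ip : Integrable p (volume.restrict (zone α β)) := integrableOn_zone (cP.mul (cpow (n + 2)))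
  have iq : Integrable q (volume.restrict (zone α β)) := integrableOn_zone (cw.mul (cpow (n + 2)))
  -- the directions
  have mdir : AEMeasurable (fun x : Pt => dirn (f.P x.1 (1 - x.2), f.w x.1 (1 - x.2)))
      (volume.restrict (zone α β)) := measurable_dirn.comp_aemeasurable (mP.prodMk mw)
  have Ra := rep_a (k := n + 3) (volume.restrict (zone α β)) (g := fun x : Pt => x)
    aemeasurable_id ia (hmem.mono hma0) hdisc ia'
  have Rb := rep_b (k := n + 3) (volume.restrict (zone α β))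
    (g := fun x : Pt => (x, ((1, 0) : Pt)))
    (aemeasurable_id.prodMk aemeasurable_const) iX (hmem.mono hX0)
    (hdisc.mono fun x hx => ⟨hx, by norm_num⟩) iX'
  have Rb' := rep_b (k := n + 3) (volume.restrict (zone α β))
    (g := fun x : Pt => (x, dirn (f.P x.1 (1 - x.2), f.w x.1 (1 - x.2))))
    (aemeasurable_id.prodMk mdir) ib (hmem.mono hmb0)
    (hdisc.mono fun x hx => ⟨hx, dirn_unit _⟩) ib'
  have Rc := rep_c (k := n + 3) (volume.restrict (zone α β)) (g := fun x : Pt => x)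
    aemeasurable_id idd (hmem.mono hmd0) hdisc id'
  refine (((Ra.add Rb).add Rb').add Rc).congr fun A B hA hB => ?_
  -- the four integrands
  have e1 : (fun x => ma x * La (n + 3) A B x) = fun x => ma x * dr A x + ma x * dz B x +
      (n + 1) * (ma x / x.1 * A x) := by
    funext x
    unfold La
    push_cast
    ring
  have e2 : (fun x => X x * Lb (n + 3) A B x (1, 0)) = fun x => X x * dr A x +
      (n + 2) * (X x / x.1 * A x) := by
    funext x
    unfold Lb
    push_cast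
    ring
  have e3 : ∀ x ∈ zone α β,
      mb x * Lb (n + 3) A B x (dirn (f.P x.1 (1 - x.2), f.w x.1 (1 - x.2))) =
      p x * dr A x - (q x * dz A x + q x * dr B x) + X x * dz B x +
        (n + 2) * (mb x / x.1 * A x) := by
    intro x hx
    have h1 := dirn_mul (adm x hx).zero (dr A x) (dz A x + dr B x) (dz B x)
    have h2 : mb x = x.1 ^ (n + 2) * (f.P x.1 (1 - x.2) +
        f.w x.1 (1 - x.2) ^ 2 / f.P x.1 (1 - x.2)) := by
      simp only [mb, X]
      ring
    unfold Lb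
    rw [mul_add (mb x)]
    have h3 : mb x * ((dirn (f.P x.1 (1 - x.2), f.w x.1 (1 - x.2))).1 ^ 2 * dr A x +
        (dirn (f.P x.1 (1 - x.2), f.w x.1 (1 - x.2))).1 *
          (dirn (f.P x.1 (1 - x.2), f.w x.1 (1 - x.2))).2 * (dz A x + dr B x) +
        (dirn (f.P x.1 (1 - x.2), f.w x.1 (1 - x.2))).2 ^ 2 * dz B x) =
        p x * dr A x - (q x * dz A x + q x * dr B x) + X x * dz B x := by
      rw [h2, mul_assoc, h1]
      simp only [p, q, X]
      ring
    rw [h3]
    push_cast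
    ring
  have e4 : (fun x => md x * Lc (n + 3) A x) = fun x => (n + 3) * (md x / x.1 * A x) := by
    funext x
    unfold Lc
    push_cast
    ring
  have cA := hA.continuous
  have cdrA := continuous_dr hA
  have cdzA := continuous_dz hA
  have cdrB := continuous_dr hB
  have cdzB := continuous_dz hB
  have i1 : Integrable (fun x => ma x * La (n + 3) A B x) (volume.restrict (zone α β)) := by
    rw [e1]
    exact ((integrable_mul ia cdrA).add (integrable_mul ia cdzB)).add
      ((integrable_mul ia' cA).const_mul _)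
  have i2 : Integrable (fun x => X x * Lb (n + 3) A B x (1, 0))
      (volume.restrict (zone α β)) := by
    rw [e2]
    exact (integrable_mul iX cdrA).add ((integrable_mul iX' cA).const_mul _)
  have i3' : Integrable (fun x => p x * dr A x - (q x * dz A x + q x * dr B x) + X x * dz B x +
        (n + 2) * (mb x / x.1 * A x)) (volume.restrict (zone α β)) :=
    (((integrable_mul ip cdrA).sub ((integrable_mul iq cdzA).add (integrable_mul iq cdrB))).add
      (integrable_mul iX cdzB)).add ((integrable_mul ib' cA).const_mul _)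
  have i3 : Integrable (fun x => mb x * Lb (n + 3) A B x
      (dirn (f.P x.1 (1 - x.2), f.w x.1 (1 - x.2)))) (volume.restrict (zone α β)) :=
    i3'.congr (hmem.mono fun x hx => (e3 x hx).symm)
  have i4 : Integrable (fun x => md x * Lc (n + 3) A x) (volume.restrict (zone α β)) := by
    rw [e4]
    exact (integrable_mul id' cA).const_mul _
  -- Green
  have cUf : ContinuousOn (Uf (n + 3) f A B) (Icc α β ×ˢ univ) := by
    unfold Uf
    exact (((cc.mul (cpow _)).add (cP.mul (cpow _))).mul cA.continuousOn).sub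
      ((cw.mul (cpow _)).mul hB.continuous.continuousOn)
  have cVf : ContinuousOn (Vf (n + 3) f A B) (Icc α β ×ˢ univ) := by
    unfold Vf
    exact (((cw.mul (cpow _)).neg).mul cA.continuousOn).add
      ((cc.mul (cpow _)).mul hB.continuous.continuousOn)
  let U1 : Pt → ℝ := fun x => ((f.c1 x.1 (1 - x.2) * x.1 ^ (n + 1) +
      f.c x.1 (1 - x.2) * ((n + 1) * x.1 ^ n)) + (f.P1 x.1 (1 - x.2) * x.1 ^ (n + 2) +
      f.P x.1 (1 - x.2) * ((n + 2) * x.1 ^ (n + 1)))) * A x +
    (f.c x.1 (1 - x.2) * x.1 ^ (n + 1) + f.P x.1 (1 - x.2) * x.1 ^ (n + 2)) * dr A x -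
    ((f.w1 x.1 (1 - x.2) * x.1 ^ (n + 2) + f.w x.1 (1 - x.2) * ((n + 2) * x.1 ^ (n + 1))) * B x +
      f.w x.1 (1 - x.2) * x.1 ^ (n + 2) * dr B x)
  let V2 : Pt → ℝ := fun x => -(-f.w2 x.1 (1 - x.2) * x.1 ^ (n + 2)) * A x +
      -(f.w x.1 (1 - x.2) * x.1 ^ (n + 2)) * dz A x +
    (((n + 2) * f.w x.1 (1 - x.2) + x.1 * f.w1 x.1 (1 - x.2)) * x.1 ^ (n + 1) * B x +
      f.c x.1 (1 - x.2) * x.1 ^ (n + 1) * dz B x)
  have cU1 : ContinuousOn U1 (Icc α β ×ˢ univ) :=
    (((((cc1.mul (cpow _)).add (cc.mul (continuousOn_const.mul (cpow _)))).add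
      ((cP1.mul (cpow _)).add (cP.mul (continuousOn_const.mul (cpow _))))).mul
        cA.continuousOn).add
      (((cc.mul (cpow _)).add (cP.mul (cpow _))).mul cdrA.continuousOn)).sub
    ((((cw1.mul (cpow _)).add (cw.mul (continuousOn_const.mul (cpow _)))).mul
      hB.continuous.continuousOn).add ((cw.mul (cpow _)).mul cdrB.continuousOn))
  have cV2 : ContinuousOn V2 (Icc α β ×ˢ univ) :=
    ((((cw2.neg.mul (cpow _)).neg).mul cA.continuousOn).add
      (((cw.mul (cpow _)).neg).mul cdzA.continuousOn)).add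
    (((((continuousOn_const.mul cw).add (continuous_fst.continuousOn.mul cw1)).mul (cpow _)).mul
      hB.continuous.continuousOn).add ((cc.mul (cpow _)).mul cdzB.continuousOn))
  have gr := green hα hαβ hβ cUf cVf (integrableOn_zone cU1) (integrableOn_zone cV2)
    (fun x hx => by
      have hx' := hio x hx
      have dp : ∀ j : ℕ, HasDerivAt (fun r : ℝ => r ^ (j + 1)) ((j + 1 : ℝ) * x.1 ^ j) x.1 :=
        fun j => by
          have h := hasDerivAt_pow (j + 1) x.1
          simpa using h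
      have h1 := (((((hf.d_cr x.1 hx' (1 - x.2)).mul (dp n)).add
        ((hf.d_P x.1 hx' (1 - x.2)).mul (dp (n + 1)))).mul (hasDerivAt_r hA x)).sub
        (((hf.d_wr x.1 hx' (1 - x.2)).mul (dp (n + 1))).mul (hasDerivAt_r hB x)))
      refine (h1.congr_deriv ?_).congr_of_eventuallyEq ?_
      · simp only [U1, Pi.mul_apply, Pi.add_apply, Prod.mk.eta]
        push_cast
        ring
      · refine Filter.Eventually.of_forall fun r => ?_
        simp only [Uf, k1, k2, Pi.mul_apply, Pi.add_apply, Pi.sub_apply])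
    (fun x hx => by
      have hx' := hio x hx
      have dw : HasDerivAt (fun z => f.w x.1 (1 - z)) (-f.w2 x.1 (1 - x.2)) x.2 :=
        HasDerivAt.comp_const_sub 1 x.2 (hf.d_wh x.1 hx' (1 - x.2))
      have dc : HasDerivAt (fun z => f.c x.1 (1 - z))
          (-(-((((n + 3 : ℕ) : ℝ) - 1) * f.w x.1 (1 - x.2) + x.1 * f.w1 x.1 (1 - x.2)))) x.2 :=
        HasDerivAt.comp_const_sub 1 x.2 (hf.d_ch x.1 hx' (1 - x.2))
      have h1 := (((dw.mul_const (x.1 ^ (n + 2))).neg).mul (hasDerivAt_z hA x)).add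
        ((dc.mul_const (x.1 ^ (n + 1))).mul (hasDerivAt_z hB x))
      refine (h1.congr_deriv ?_).congr_of_eventuallyEq ?_
      · simp only [V2, Pi.neg_apply, Prod.mk.eta]
        push_cast
        ring
      · refine Filter.Eventually.of_forall fun r => ?_
        simp only [Vf, k1, k2, Pi.mul_apply, Pi.add_apply, Pi.neg_apply])
  have i12 : Integrable (fun x => ma x * La (n + 3) A B x + X x * Lb (n + 3) A B x (1, 0))
      (volume.restrict (zone α β)) := i1.add i2
  have i123 : Integrable (fun x => ma x * La (n + 3) A B x + X x * Lb (n + 3) A B x (1, 0) +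
      mb x * Lb (n + 3) A B x (dirn (f.P x.1 (1 - x.2), f.w x.1 (1 - x.2))))
      (volume.restrict (zone α β)) := i12.add i3
  simp only
  rw [← gr, ← integral_add i1 i2, ← integral_add i12 i3, ← integral_add i123 i4]
  refine setIntegral_congr_fun hZ fun x hx => ?_
  have hx0 := (hpos x hx).ne'
  rw [e3 x hx]
  have e1' := congrFun e1 x
  have e2' := congrFun e2 x
  have e4' := congrFun e4 x
  rw [e1', e2', e4']
  simp only [ma, mb, md, p, q, X, U1, V2]
  have hq1 : x.1 ^ (n + 1) = x.1 ^ n * x.1 := pow_succ _ _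
  have hq2 : x.1 ^ (n + 2) = x.1 ^ n * x.1 ^ 2 := pow_add _ _ _
  have hq3 : x.1 ^ (n + 3) = x.1 ^ n * x.1 ^ 3 := pow_add _ _ _
  rw [hq1, hq2, hq3]
  generalize f.w x.1 (1 - x.2) ^ 2 / f.P x.1 (1 - x.2) = Y
  field_simp
  ring

end Pool.Agent.Helper19.LB
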